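import Pool.Agent.Helper6.NX.GoalsA

/-! Packet NX-M1A of helper6: near invariance of `hlaw`. -/

set_option linter.unusedVariables false

namespace Pool.Agent.Helper69.NX

open Pool.Agent.Helper6.NX

section basics

variable {Ω Ω' α : Type} [Fintype Ω] [Fintype Ω']

theorem law_equiv (e : Ω' ≃ Ω) (P : Ω → ℝ) (X : Ω → α) (a : α) :
    law (fun ω => P (e ω)) (fun ω => X (e ω)) a = law P X a := by
  classical
  unfold law
  exact e.sum_comp (fun ω => if X ω = a then P ω else 0)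

theorem ent_equiv (e : Ω' ≃ Ω) (P : Ω → ℝ) (X : Ω → α) :
    ent (fun ω => P (e ω)) (fun ω => X (e ω)) = ent P X := by
  unfold ent
  simp only [law_equiv e P X]
  rw [e.sum_comp (fun ω => P ω * Real.log (law P X (X ω)))]

theorem isLaw_law (P : Ω → ℝ) (X : Ω → Ω') (h : IsLaw P) : IsLaw (law P X) := by
  classical
  refine ⟨fun a => ?_, ?_⟩
  · unfold law
    refine Finset.sum_nonneg fun ω _ => ?_
    split_ifs
    · exact h.1 ω
    · exact le_rfl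
  · unfold law
    rw [Finset.sum_comm]
    simp [h.2]

end basics

section main

variable {G : Type} [Group G] [Fintype G]

/-- the reindexing `(g, a) ↦ (a, g a)` -/
def ee : G × G ≃ G × G where
  toFun z := (z.2, z.1 * z.2)
  invFun a := (a.2 * a.1⁻¹, a.1)
  left_inv z := by simp
  right_inv a := by simp

theorem sum_ee (F : G × G → ℝ) : ∑ a, F a = ∑ g, ∑ a, F (a, g * a) := by
  rw [← (ee (G := G)).sum_comp F, Fintype.sum_prod_type]
  rfl

/-- the law of the quotient -/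
noncomputable def ZZ (μ : G → ℝ) (g : G) : ℝ := ∑ a, μ a * μ (g * a)

open Classical in
/-- the conditional law of `a₀` given the quotient -/
noncomputable def QQ (μ : G → ℝ) (g a : G) : ℝ :=
  if ZZ μ g = 0 then μ a else μ a * μ (g * a) / ZZ μ g

theorem law_eq_ZZ (μ : G → ℝ) (g : G) :
    law (prd μ μ) (fun a => a.2 * a.1⁻¹) g = ZZ μ g := by
  classical
  unfold law ZZ
  rw [sum_ee]
  rw [Fintype.sum_eq_single g]
  · simp [prd]
  · intro g' hg'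
    simp [hg']

theorem sum_left (μ : G → ℝ) (b : G) : ∑ g, μ (g * b) = ∑ g, μ g :=
  Equiv.sum_comp (Equiv.mulRight b) μ

theorem isLaw_ZZ (μ : G → ℝ) (h : IsLaw μ) : IsLaw (ZZ μ) := by
  refine ⟨fun g => Finset.sum_nonneg fun a _ => mul_nonneg (h.1 _) (h.1 _), ?_⟩
  unfold ZZ
  rw [Finset.sum_comm]
  simp_rw [← Finset.mul_sum, sum_left, h.2, mul_one]
  exact h.2

theorem ZQ (μ : G → ℝ) (h : IsLaw μ) (g a : G) : ZZ μ g * QQ μ g a = μ a * μ (g * a) := by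
  classical
  unfold QQ
  split_ifs with h0
  · have := (Finset.sum_eq_zero_iff_of_nonneg
      (fun a _ => mul_nonneg (h.1 a) (h.1 (g * a)))).1 h0 a (Finset.mem_univ a)
    rw [this, h0, zero_mul]
  · field_simp

theorem isLaw_QQ (μ : G → ℝ) (h : IsLaw μ) (g : G) : IsLaw (QQ μ g) := by
  classical
  refine ⟨fun a => ?_, ?_⟩
  · unfold QQ
    split_ifs
    · exact h.1 a
    · exact div_nonneg (mul_nonneg (h.1 _) (h.1 _)) ((isLaw_ZZ μ h).1 g)
  · unfold QQ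
    split_ifs with h0
    · exact h.2
    · rw [← Finset.sum_div]
      exact div_self h0

theorem hlaw_eq (μ : G → ℝ) (h : IsLaw μ) (y : G) :
    hlaw μ y = ∑ g, ∑ a, ZZ μ g * QQ μ g a * QQ μ g (a * y) := by
  classical
  have h1 : hlaw μ y = ∑ a : G × G, ∑ b : G × G, (if a.1⁻¹ * b.1 = y then
      (if a.2 * a.1⁻¹ = b.2 * b.1⁻¹ then
        prd μ μ a * prd μ μ b / ZZ μ (a.2 * a.1⁻¹) else 0) else 0) := by
    unfold hlaw quad ccp
    unfold law
    rw [Fintype.sum_prod_type]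
    refine Finset.sum_congr rfl fun a _ => Finset.sum_congr rfl fun b _ => ?_
    have := law_eq_ZZ μ (a.2 * a.1⁻¹)
    unfold law at this
    simp only [this]
  rw [h1, sum_ee]
  refine Finset.sum_congr rfl fun g _ => Finset.sum_congr rfl fun a _ => ?_
  rw [sum_ee, Fintype.sum_eq_single g]
  · rw [Fintype.sum_eq_single (a * y)]
    · by_cases h0 : ZZ μ g = 0
      · simp [h0]
      · simp only [mul_inv_cancel_right, inv_mul_cancel_left, if_true, prd]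
        rw [ZQ μ h, QQ, if_neg h0]
        ring
    · intro b hb
      rw [if_neg]
      intro hc
      apply hb
      rw [← hc]
      simp
  · intro g' hg'
    refine Finset.sum_eq_zero fun b _ => ?_
    have : ¬ (g * a * a⁻¹ = g' * b * b⁻¹) := by
      simp only [mul_inv_cancel_right]
      exact fun hc => hg' hc.symm
    simp [Ne.symm hg']

theorem D_le (μ : G → ℝ) (h : IsLaw μ) (x : G) (ε : ℝ) (hx : ∑ g, |μ (g * x⁻¹) - μ g| ≤ ε) :
    ∑ g, ZZ μ g * ∑ b, |QQ μ g (b * x⁻¹) - QQ μ g b| ≤ 2 * ε := by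
  have h1 : ∀ g b, ZZ μ g * |QQ μ g (b * x⁻¹) - QQ μ g b| ≤
      |μ (b * x⁻¹) - μ b| * μ (g * (b * x⁻¹)) + μ b * |μ (g * (b * x⁻¹)) - μ (g * b)| := by
    intro g b
    have hz := (isLaw_ZZ μ h).1 g
    have e0 : ZZ μ g * |QQ μ g (b * x⁻¹) - QQ μ g b| =
        |ZZ μ g * (QQ μ g (b * x⁻¹) - QQ μ g b)| := by rw [abs_mul, abs_of_nonneg hz]
    rw [e0, mul_sub, ZQ μ h, ZQ μ h]
    have e : μ (b * x⁻¹) * μ (g * (b * x⁻¹)) - μ b * μ (g * b) =
        (μ (b * x⁻¹) - μ b) * μ (g * (b * x⁻¹)) + μ b * (μ (g * (b * x⁻¹)) - μ (g * b)) := by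
      ring
    rw [e]
    refine (abs_add_le _ _).trans ?_
    rw [abs_mul, abs_mul, abs_of_nonneg (h.1 (g * (b * x⁻¹))), abs_of_nonneg (h.1 b)]
  calc ∑ g, ZZ μ g * ∑ b, |QQ μ g (b * x⁻¹) - QQ μ g b|
      = ∑ g, ∑ b, ZZ μ g * |QQ μ g (b * x⁻¹) - QQ μ g b| := by
        simp_rw [Finset.mul_sum]
    _ ≤ ∑ g, ∑ b, (|μ (b * x⁻¹) - μ b| * μ (g * (b * x⁻¹)) +
          μ b * |μ (g * (b * x⁻¹)) - μ (g * b)|) :=
        Finset.sum_le_sum fun g _ => Finset.sum_le_sum fun b _ => h1 g b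
    _ = ∑ b, ∑ g, (|μ (b * x⁻¹) - μ b| * μ (g * (b * x⁻¹)) +
          μ b * |μ (g * (b * x⁻¹)) - μ (g * b)|) := Finset.sum_comm
    _ = ∑ b, (|μ (b * x⁻¹) - μ b| * 1 + μ b * ∑ g, |μ (g * x⁻¹) - μ g|) := by
        refine Finset.sum_congr rfl fun b _ => ?_
        rw [Finset.sum_add_distrib, ← Finset.mul_sum, ← Finset.mul_sum, sum_left, h.2]
        congr 2
        have := Equiv.sum_comp (Equiv.mulRight b) (fun g => |μ (g * x⁻¹) - μ g|)
        simp only [Equiv.coe_mulRight] at this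
        rw [← this]
        simp only [mul_assoc]
    _ = ∑ b, |μ (b * x⁻¹) - μ b| + (∑ b, μ b) * ∑ g, |μ (g * x⁻¹) - μ g| := by
        rw [Finset.sum_add_distrib, Finset.sum_mul]
        simp only [mul_one]
    _ ≤ 2 * ε := by
        rw [h.2]
        linarith

theorem NI_hlaw (μ : G → ℝ) (h : IsLaw μ) (x : G) (ε : ℝ)
    (hx : ∑ g, |μ (g * x⁻¹) - μ g| ≤ ε) :
    ∑ y, |hlaw μ (y * x⁻¹) - hlaw μ y| ≤ 2 * ε := by
  refine le_trans ?_ (D_le μ h x ε hx)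
  have h1 : ∀ y, |hlaw μ (y * x⁻¹) - hlaw μ y| ≤
      ∑ g, ∑ a, ZZ μ g * QQ μ g a * |QQ μ g (a * (y * x⁻¹)) - QQ μ g (a * y)| := by
    intro y
    rw [hlaw_eq μ h, hlaw_eq μ h, ← Finset.sum_sub_distrib]
    refine (Finset.abs_sum_le_sum_abs _ _).trans (Finset.sum_le_sum fun g _ => ?_)
    rw [← Finset.sum_sub_distrib]
    refine (Finset.abs_sum_le_sum_abs _ _).trans (Finset.sum_le_sum fun a _ => ?_)
    rw [← mul_sub, abs_mul, abs_of_nonneg (mul_nonneg ((isLaw_ZZ μ h).1 g) ((isLaw_QQ μ h g).1 a))]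
  calc ∑ y, |hlaw μ (y * x⁻¹) - hlaw μ y|
      ≤ ∑ y, ∑ g, ∑ a, ZZ μ g * QQ μ g a * |QQ μ g (a * (y * x⁻¹)) - QQ μ g (a * y)| :=
        Finset.sum_le_sum fun y _ => h1 y
    _ = ∑ g, ∑ y, ∑ a, ZZ μ g * QQ μ g a * |QQ μ g (a * (y * x⁻¹)) - QQ μ g (a * y)| :=
        Finset.sum_comm
    _ = ∑ g, ∑ a, ∑ y, ZZ μ g * QQ μ g a * |QQ μ g (a * (y * x⁻¹)) - QQ μ g (a * y)| :=
        Finset.sum_congr rfl fun g _ => Finset.sum_comm
    _ = ∑ g, ∑ a, ZZ μ g * QQ μ g a * ∑ b, |QQ μ g (b * x⁻¹) - QQ μ g b| := by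
        refine Finset.sum_congr rfl fun g _ => Finset.sum_congr rfl fun a _ => ?_
        rw [← Finset.mul_sum]
        congr 1
        have := Equiv.sum_comp (Equiv.mulLeft a) (fun b => |QQ μ g (b * x⁻¹) - QQ μ g b|)
        simp only [Equiv.coe_mulLeft] at this
        rw [← this]
        simp only [mul_assoc]
    _ = ∑ g, ZZ μ g * ∑ b, |QQ μ g (b * x⁻¹) - QQ μ g b| := by
        refine Finset.sum_congr rfl fun g _ => ?_
        rw [← Finset.sum_mul, ← Finset.mul_sum, (isLaw_QQ μ h g).2, mul_one]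
    _ ≤ _ := le_rfl

theorem cent_eq (hl7 : S_L7) (μ : G → ℝ) (h : IsLaw μ) :
    cent (prd μ μ) (fun a => a.1) (fun a => a.2 * a.1⁻¹) = ∑ g, ZZ μ g * H (QQ μ g) := by
  have h7 := (hl7 G G G G G (ZZ μ) (QQ μ) (fun _ a => a) (fun _ a => a) (fun g => g)
    (isLaw_ZZ μ h) (isLaw_QQ μ h)).2.2.1
  have e1 : ∑ g, ZZ μ g * H (QQ μ g) = ∑ g, ZZ μ g * ent (QQ μ g) (fun a => a) := rfl
  rw [e1, ← h7]
  unfold cent
  have hP : mixl (ZZ μ) (QQ μ) = fun z => prd μ μ (ee z) := by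
    funext z
    exact ZQ μ h z.1 z.2
  rw [hP, ← ent_equiv ee (prd μ μ) (fun a => (a.1, a.2 * a.1⁻¹)),
    ← ent_equiv ee (prd μ μ) (fun a => a.2 * a.1⁻¹)]
  simp [ee]

end main

/-- **Packet NX-M1A.** -/
theorem thmM1A (hl1 : Pool.Agent.Helper6.NX.S_L1) (hl7 : Pool.Agent.Helper6.NX.S_L7)
    (hl8 : Pool.Agent.Helper6.NX.S_L8) : Pool.Agent.Helper6.NX.S_M1A := by
  intro G _ _ k x τ ε μ hk hτ hτ' hε hμ hNI hwin
  have hP : IsLaw (prd μ μ) :=
    ((hl7 G G G G G μ (fun _ => μ) (fun _ a => a) (fun _ a => a) (fun g => g)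
      hμ (fun _ => hμ)).2.2.2.2 μ (fun a => a) hμ).1
  obtain ⟨hq, -, -, hsw, -, -⟩ := hl8 (G × G) G G G (prd μ μ) (fun a => a.1) (fun a => a.1)
    (fun a => a.2 * a.1⁻¹) hP
  refine ⟨isLaw_law _ _ hq, ?_, fun i => NI_hlaw μ hμ (x i) ε (hNI i), ?_⟩
  · intro y
    classical
    unfold hlaw law
    rw [← (Equiv.prodComm (G × G) (G × G)).sum_comp]
    refine Finset.sum_congr rfl fun z _ => ?_
    have e1 : quad μ ((Equiv.prodComm (G × G) (G × G)) z) = quad μ z := hsw z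
    rw [e1]
    have e2 : (((Equiv.prodComm (G × G) (G × G)) z).1.1⁻¹ *
        ((Equiv.prodComm (G × G) (G × G)) z).2.1 = y⁻¹) ↔ (z.1.1⁻¹ * z.2.1 = y) := by
      simp only [Equiv.prodComm_apply, Prod.fst_swap, Prod.snd_swap]
      rw [← inv_inj]
      simp
    simp only [e2]
  · rw [cent_eq hl7 μ hμ]
    have hH : 0 ≤ H μ := (hl1 G G μ (fun g => g) hμ).2.2.2.1
    have hHQ : ∀ g, 0 ≤ H (QQ μ g) := fun g =>
      (hl1 G G (QQ μ g) (fun g => g) (isLaw_QQ μ hμ g)).2.2.2.1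
    have hk0 : (0 : ℝ) < k := by exact_mod_cast hk
    have hc : 0 < 2 * k / τ * ε := by positivity
    -- pointwise bound
    have hpt : ∀ g, (1 - τ) * H μ * (1 - (∑ i, ∑ b, |QQ μ g (b * (x i)⁻¹) - QQ μ g b|) /
        (2 * k / τ * ε)) ≤ H (QQ μ g) := by
      intro g
      have hD : 0 ≤ ∑ i, ∑ b, |QQ μ g (b * (x i)⁻¹) - QQ μ g b| :=
        Finset.sum_nonneg fun i _ => Finset.sum_nonneg fun b _ => abs_nonneg _
      have hA : 0 ≤ (1 - τ) * H μ := mul_nonneg (by linarith) hH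
      rcases le_or_gt (∑ i, ∑ b, |QQ μ g (b * (x i)⁻¹) - QQ μ g b|) (2 * k / τ * ε) with hle | hgt
      · have h1 : NI x (QQ μ g) (2 * k / τ * ε) := by
          intro i
          refine le_trans ?_ hle
          exact Finset.single_le_sum (f := fun i => ∑ b, |QQ μ g (b * (x i)⁻¹) - QQ μ g b|)
            (fun i _ => Finset.sum_nonneg fun b _ => abs_nonneg _) (Finset.mem_univ i)
        have h2 := hwin (QQ μ g) (isLaw_QQ μ hμ g) h1
        refine le_trans ?_ h2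
        have h3 : 0 ≤ (∑ i, ∑ b, |QQ μ g (b * (x i)⁻¹) - QQ μ g b|) / (2 * k / τ * ε) :=
          div_nonneg hD hc.le
        nlinarith
      · have h3 : 1 ≤ (∑ i, ∑ b, |QQ μ g (b * (x i)⁻¹) - QQ μ g b|) / (2 * k / τ * ε) :=
          (one_le_div hc).2 hgt.le
        have h4 := hHQ g
        nlinarith
    have hsum : ∑ g, ZZ μ g * (∑ i, ∑ b, |QQ μ g (b * (x i)⁻¹) - QQ μ g b|) ≤ k * (2 * ε) := by
      have e : ∑ g, ZZ μ g * (∑ i, ∑ b, |QQ μ g (b * (x i)⁻¹) - QQ μ g b|) =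
          ∑ i, ∑ g, ZZ μ g * ∑ b, |QQ μ g (b * (x i)⁻¹) - QQ μ g b| := by
        rw [Finset.sum_comm]
        simp_rw [Finset.mul_sum]
      rw [e]
      refine (Finset.sum_le_sum fun i _ => D_le μ hμ (x i) ε (hNI i)).trans ?_
      simp
    have hmain : ∑ g, ZZ μ g * ((1 - τ) * H μ *
        (1 - (∑ i, ∑ b, |QQ μ g (b * (x i)⁻¹) - QQ μ g b|) / (2 * k / τ * ε))) ≤
        ∑ g, ZZ μ g * H (QQ μ g) :=
      Finset.sum_le_sum fun g _ => mul_le_mul_of_nonneg_left (hpt g) ((isLaw_ZZ μ hμ).1 g)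
    refine le_trans ?_ hmain
    have e2 : ∑ g, ZZ μ g * ((1 - τ) * H μ *
        (1 - (∑ i, ∑ b, |QQ μ g (b * (x i)⁻¹) - QQ μ g b|) / (2 * k / τ * ε))) =
        (1 - τ) * H μ * (1 - (∑ g, ZZ μ g * (∑ i, ∑ b, |QQ μ g (b * (x i)⁻¹) - QQ μ g b|)) /
          (2 * k / τ * ε)) := by
      have e3 : (1 : ℝ) - (∑ g, ZZ μ g * (∑ i, ∑ b, |QQ μ g (b * (x i)⁻¹) - QQ μ g b|)) /
          (2 * k / τ * ε) = ∑ g, (ZZ μ g - ZZ μ g *
            (∑ i, ∑ b, |QQ μ g (b * (x i)⁻¹) - QQ μ g b|) / (2 * k / τ * ε)) := by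
        rw [Finset.sum_sub_distrib, (isLaw_ZZ μ hμ).2, Finset.sum_div]
      rw [e3, Finset.mul_sum]
      refine Finset.sum_congr rfl fun g _ => ?_
      ring
    rw [e2]
    have h5 : (∑ g, ZZ μ g * (∑ i, ∑ b, |QQ μ g (b * (x i)⁻¹) - QQ μ g b|)) /
        (2 * k / τ * ε) ≤ τ := by
      rw [div_le_iff₀ hc]
      refine hsum.trans (le_of_eq ?_)
      field_simp
    have hA : 0 ≤ (1 - τ) * H μ := mul_nonneg (by linarith) hH
    have h6 : (1 - τ) * H μ * (1 - τ) ≤ (1 - τ) * H μ *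
        (1 - (∑ g, ZZ μ g * (∑ i, ∑ b, |QQ μ g (b * (x i)⁻¹) - QQ μ g b|)) /
          (2 * k / τ * ε)) := mul_le_mul_of_nonneg_left (by linarith) hA
    refine le_trans ?_ h6
    nlinarith [mul_nonneg (sq_nonneg τ) hH]

end Pool.Agent.Helper69.NX
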